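import Pool.Agent.KS6_22.CU.G.Cohen

/-!
# Adding `κ` Cohen reals, `κ ^ ℵ₀ = κ`, forces the continuum to be at most `κ`
-/

namespace Pool.Agent.KS6_22.CU.G.Cohen

open Cardinal Set Pool.Agent.KS6_22.CU.F.Forcing

variable {ι : Type}

theorem mk_Fn_le (hι : ℵ₀ < #ι) : #(Fn ι) ≤ #ι := by
  have h1 : #(Fn ι) ≤ #(Finset ((ι × ℕ) × Bool)) :=
    mk_le_of_injective (f := Fn.g) fun p q h => ext_g h
  have hinf : Infinite ι := infinite_iff.2 hι.le
  refine h1.trans ?_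
  rw [mk_finset_of_infinite, mk_prod, mk_prod]
  simp only [Cardinal.lift_id, mk_nat]
  refine (mul_le_mul' (mul_le_mul' le_rfl hι.le) (mk_le_aleph0.trans hι.le)).trans ?_
  rw [mul_eq_self hι.le, mul_eq_self hι.le]

/-- a countable name -/
def nm (c : ℕ → ℕ → Option (Fn ι × ℕ)) (n m : ℕ) : Set (Fn ι) :=
  {q | ∃ j, c n j = some (q, m)}

theorem exists_nm (x : ℕ → ℕ → Set (Fn ι)) :
    ∃ c, (∀ p, p ∈ IsFun (nm c)) ∧ ∀ p ∈ IsFun x, p ∈ SameReal x (nm c) := by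
  classical
  have hD : ∀ n, ∃ A ⊆ {q : Fn ι | (∃ m, q ∈ meets (x n m) ∧ q ∈ IsFun x) ∨
      q ∈ fnot (IsFun x)}, A.Countable ∧ (∀ p, ∃ a ∈ A, Compat a p) ∧
      ∀ a ∈ A, ∀ b ∈ A, Compat a b → a = b := by
    intro n
    apply exists_antichain
    intro q
    by_cases hq : q ∈ fnot (IsFun x)
    · exact ⟨q, le_rfl, Or.inr hq⟩
    · simp only [fnot, Set.mem_ofPred_eq, not_forall, not_not] at hq
      obtain ⟨q', hq', hfun⟩ := hq
      obtain ⟨q'', hq'', m, hm⟩ := IsFun.total hfun n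
      exact ⟨q'', hq''.trans hq', Or.inl ⟨m, hm, down_IsFun x _ hfun _ hq''⟩⟩
  choose A hAD hAc hApre hAanti using hD
  have hval : ∀ n, ∀ a : Fn ι, ∃ m, a ∈ A n → (a ∈ meets (x n m) ∨ a ∈ fnot (IsFun x)) := by
    intro n a
    by_cases ha : a ∈ A n
    · rcases hAD n ha with ⟨m, h1, _⟩ | h
      · exact ⟨m, fun _ => Or.inl h1⟩
      · exact ⟨0, fun _ => Or.inr h⟩
    · exact ⟨0, fun h => absurd h ha⟩
  choose v hv using hval
  have hcode : ∀ n, ∃ g : ℕ → Option (Fn ι × ℕ), ∀ q m, (∃ j, g j = some (q, m)) ↔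
      (q ∈ A n ∧ v n q = m) := by
    intro n
    obtain ⟨a₀, ha₀, _⟩ := hApre n (Classical.arbitrary _)
    have : Nonempty (A n) := ⟨⟨a₀, ha₀⟩⟩
    have hc : Countable (A n) := hAc n
    obtain ⟨g, hg⟩ := exists_surjective_nat (A n)
    refine ⟨fun j => some ((g j).1, v n (g j).1), fun q m => ?_⟩
    constructor
    · rintro ⟨j, hj⟩
      simp only [Option.some.injEq, Prod.mk.injEq] at hj
      obtain ⟨rfl, rfl⟩ := hj
      exact ⟨(g j).2, rfl⟩
    · rintro ⟨hq, rfl⟩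
      obtain ⟨j, hj⟩ := hg ⟨q, hq⟩
      exact ⟨j, by simp [hj]⟩
  choose c hc using hcode
  have hmem : ∀ n m q, q ∈ nm c n m ↔ (q ∈ A n ∧ v n q = m) := fun n m q => hc n q m
  refine ⟨c, fun p => ⟨fun n => mem_fex.2 fun q _ => ?_, fun n m m' => mem_fimp.2 fun q _ h => ?_⟩,
    fun p hp n a b => mem_fimp.2 fun q hq h => ?_⟩
  · obtain ⟨a, ha, s, hs1, hs2⟩ := hApre n q
    exact ⟨s, hs2, v n a, meets_of_le ((hmem n _ a).2 ⟨ha, rfl⟩) hs1⟩
  · obtain ⟨r, hr, a, ha, hra⟩ := h.1 q le_rfl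
    obtain ⟨r', hr', a', ha', hra'⟩ := h.2 r hr
    obtain ⟨ha1, rfl⟩ := (hmem n _ a).1 ha
    obtain ⟨ha2, rfl⟩ := (hmem n _ a').1 ha'
    have : a = a' := hAanti n a ha1 a' ha2 ⟨r', hr'.trans hra, hra'⟩
    exact ⟨q, le_rfl, by rw [this]; rfl⟩
  · obtain ⟨r, hr, s, hs, hrs⟩ := h.2 q le_rfl
    obtain ⟨hs1, rfl⟩ := (hmem n _ s).1 hs
    have hfun : r ∈ IsFun x := down_IsFun x p hp r (hr.trans hq)
    rcases hv n s hs1 with h1 | h1
    · exact ⟨r, hr, IsFun.unique hfun (down_meets _ _ h.1 r hr) (down_meets _ _ h1 r hrs)⟩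
    · exact absurd hfun (h1 r hrs)

theorem continuumLe (hι : ℵ₀ < #ι) (hpow : #ι ^ ℵ₀ = #ι) (p : Fn ι) :
    p ∈ ContinuumLe (Fn ι) ι := by
  classical
  let N := {c : ℕ → ℕ → Option (Fn ι × ℕ) // ∀ p, p ∈ IsFun (nm c)}
  have hN : #N ≤ #ι := by
    refine (mk_subtype_le _).trans ?_
    have h2 : ∀ X : Type, #X ≤ #ι → #(ℕ → X) ≤ #ι := by
      intro X hX
      have : #(ℕ → X) = #X ^ ℵ₀ := by
        simp [mk_pi]
      rw [this]
      exact (power_le_power_right hX).trans hpow.le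
    refine h2 _ (h2 _ ?_)
    rw [mk_option, mk_prod]
    simp only [lift_uzero, mk_nat]
    exact (add_le_add ((mul_le_mul' (mk_Fn_le hι) hι.le).trans (mul_eq_self hι.le).le)
      (one_le_aleph0.trans hι.le)).trans (add_eq_self hι.le).le
  have hne : Nonempty N := by
    obtain ⟨c, hc, _⟩ := exists_nm (ι := ι) fun _ _ => ∅
    exact ⟨⟨c, hc⟩⟩
  obtain ⟨g⟩ : Nonempty (N ↪ ι) := Cardinal.le_def _ _ |>.1 hN
  have hsurj : Function.Surjective (Function.invFun g) := Function.invFun_surjective g.injective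
  refine mem_fex_of_mem (fun i => nm (Function.invFun g i).1) ?_ ?_
  · exact down_fand (down_fall fun _ => down_IsFun _) (down_fall fun _ => down_fimp _ _)
  · refine ⟨fun i => (Function.invFun g i).2 p, fun x => mem_fimp.2 fun q _ hq => ?_⟩
    obtain ⟨c, hc1, hc2⟩ := exists_nm x
    obtain ⟨i, hi⟩ := hsurj ⟨c, hc1⟩
    refine ⟨q, le_rfl, mem_fex_of_mem i (down_SameReal _ _) ?_⟩
    have h2 : q ∈ SameReal x (nm (Function.invFun g i).1) := by
      rw [show (Function.invFun g i).1 = c from congrArg Subtype.val hi]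
      exact hc2 q hq
    exact h2

end Pool.Agent.KS6_22.CU.G.Cohen
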