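import Mathlib
import Pool.Agent.KS6_22.CU.F.Forcing

/-!
# Adding many Cohen reals forces `cov(M) = 𝔠`
-/

namespace Pool.Agent.KS6_22.CU.G.Cohen

open Cardinal Set Pool.Agent.KS6_22.CU.F.Forcing

/-- A condition of the forcing notion adding Cohen reals indexed by `ι`: a finite partial function
from `ι × ℕ` to `{0, 1}`, given by its graph. -/
structure Fn (ι : Type) where
  /-- the graph -/
  g : Finset ((ι × ℕ) × Bool)
  fn : ∀ a b b', (a, b) ∈ g → (a, b') ∈ g → b = b'

/-- `q ≤ p` if `q` extends `p`. -/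
instance (ι : Type) : Preorder (Fn ι) where
  le q p := p.g ⊆ q.g
  le_refl _ := Finset.Subset.refl _
  le_trans _ _ _ h h' := Finset.Subset.trans h' h

/-- In the extension, for each family of dense subsets of the set of finite sequences of natural
numbers, which is indexed by `J`, there is a sequence of natural numbers with an initial segment
in each member of the family. -/
def MeetsDense (P : Type) [Preorder P] (J : Type) : Set P :=
  fall fun D : J → List ℕ → Set P =>
    fimp (fall fun j => fall fun s => fex fun t => fand (fground (s <+: t)) (meets (D j t)))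
      (fex fun x : ℕ → ℕ → Set P => fand (IsFun x)
        (fall fun j => fex fun t => fand (InitSeg t x) (meets (D j t))))

variable {ι : Type}

theorem le_iff {q p : Fn ι} : q ≤ p ↔ p.g ⊆ q.g := Iff.rfl

theorem ext_g {p q : Fn ι} (h : p.g = q.g) : p = q := by
  cases p
  cases q
  cases h
  rfl

instance : Nonempty (Fn ι) := ⟨⟨∅, fun a b b' h => absurd h (Finset.notMem_empty _)⟩⟩

/-- compatibility -/
def Compat (p q : Fn ι) : Prop := ∃ s, s ≤ p ∧ s ≤ q

theorem compat_iff {p q : Fn ι} :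
    Compat p q ↔ ∀ a b b', (a, b) ∈ p.g → (a, b') ∈ q.g → b = b' := by
  classical
  constructor
  · rintro ⟨s, h1, h2⟩ a b b' hb hb'
    exact s.fn a b b' (h1 hb) (h2 hb')
  · intro h
    refine ⟨⟨p.g ∪ q.g, fun a b b' hb hb' => ?_⟩, ?_, ?_⟩
    · rcases Finset.mem_union.1 hb with hb | hb <;> rcases Finset.mem_union.1 hb' with hb' | hb'
      · exact p.fn a b b' hb hb'
      · exact h a b b' hb hb'
      · exact (h a b' b hb' hb).symm
      · exact q.fn a b b' hb hb'
    · exact Finset.subset_union_left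
    · exact Finset.subset_union_right

theorem Compat.symm {p q : Fn ι} (h : Compat p q) : Compat q p := by
  obtain ⟨s, h1, h2⟩ := h
  exact ⟨s, h2, h1⟩

theorem ccc_aux (n : ℕ) : ∀ A : Set (Fn ι), (∀ p ∈ A, p.g.card = n) →
    (∀ p ∈ A, ∀ q ∈ A, Compat p q → p = q) → A.Countable := by
  classical
  induction n with
  | zero =>
    intro A hA hanti
    refine Set.Subsingleton.countable fun p hp q hq => hanti p hp q hq ?_
    rw [compat_iff]
    intro a b b' hb
    rw [Finset.card_eq_zero.1 (hA p hp)] at hb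
    exact absurd hb (Finset.notMem_empty _)
  | succ n ih =>
    intro A hA hanti
    -- for each `x`, the members containing `x`
    have h1 : ∀ x : (ι × ℕ) × Bool, {p ∈ A | x ∈ p.g}.Countable := by
      intro x
      let rem : Fn ι → Fn ι := fun p =>
        ⟨p.g.erase x, fun a b b' hb hb' =>
          p.fn a b b' (Finset.mem_of_mem_erase hb) (Finset.mem_of_mem_erase hb')⟩
      have hinj : Set.InjOn rem {p ∈ A | x ∈ p.g} := by
        rintro p ⟨_, hp⟩ q ⟨_, hq⟩ h
        apply ext_g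
        have h2 : p.g.erase x = q.g.erase x := congrArg Fn.g h
        rw [← Finset.insert_erase hp, ← Finset.insert_erase hq, h2]
      refine Set.countable_of_injective_of_countable_image hinj (ih _ ?_ ?_)
      · rintro _ ⟨p, ⟨hpA, hp⟩, rfl⟩
        show (p.g.erase x).card = n
        rw [Finset.card_erase_of_mem hp, hA p hpA]
        rfl
      · rintro _ ⟨p, ⟨hpA, hp⟩, rfl⟩ _ ⟨q, ⟨hqA, hq⟩, rfl⟩ hc
        rw [compat_iff] at hc
        have h2 : p = q := by
          apply hanti p hpA q hqA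
          rw [compat_iff]
          intro a b b' hb hb'
          by_cases hx : (a, b) = x
          · subst hx
            exact q.fn a b b' hq hb'
          · by_cases hx' : (a, b') = x
            · subst hx'
              exact p.fn a b b' hb hp
            · exact hc a b b' (Finset.mem_erase.2 ⟨hx, hb⟩) (Finset.mem_erase.2 ⟨hx', hb'⟩)
        rw [h2]
    rcases A.eq_empty_or_nonempty with rfl | ⟨p, hp⟩
    · exact Set.countable_empty
    · have h2 : A ⊆ ⋃ x ∈ (p.g : Set ((ι × ℕ) × Bool)), ⋃ b : Bool, {q ∈ A | (x.1, b) ∈ q.g} := by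
        intro q hq
        by_cases hc : Compat p q
        · rw [← hanti p hp q hq hc]
          have hne : p.g.Nonempty := by
            rw [← Finset.card_pos, hA p hp]
            exact Nat.succ_pos _
          obtain ⟨x, hx⟩ := hne
          exact mem_biUnion (Finset.mem_coe.2 hx) (mem_iUnion.2 ⟨x.2, hp, hx⟩)
        · rw [compat_iff] at hc
          push Not at hc
          obtain ⟨a, b, b', hb, hb', _⟩ := hc
          exact mem_biUnion (Finset.mem_coe.2 hb) (mem_iUnion.2 ⟨b', hq, hb'⟩)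
      exact (Set.Countable.biUnion (Finset.countable_toSet _) fun x _ =>
        Set.countable_iUnion fun b => h1 _).mono h2

theorem ccc (A : Set (Fn ι)) (hanti : ∀ p ∈ A, ∀ q ∈ A, Compat p q → p = q) : A.Countable := by
  have h1 : A ⊆ ⋃ n : ℕ, {p ∈ A | p.g.card = n} := fun p hp => mem_iUnion.2 ⟨_, hp, rfl⟩
  refine (Set.countable_iUnion fun n => ?_).mono h1
  exact ccc_aux n _ (fun p hp => hp.2) fun p hp q hq h => hanti p hp.1 q hq.1 h

theorem exists_antichain {E : Set (Fn ι)} (hE : ∀ p, ∃ r ≤ p, r ∈ E) :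
    ∃ A ⊆ E, A.Countable ∧ (∀ p, ∃ a ∈ A, Compat a p) ∧
      ∀ a ∈ A, ∀ b ∈ A, Compat a b → a = b := by
  obtain ⟨A, hA⟩ := zorn_subset {A : Set (Fn ι) | A ⊆ E ∧ ∀ a ∈ A, ∀ b ∈ A, Compat a b → a = b} (by
    intro c hc hchain
    refine ⟨⋃₀ c, ⟨sUnion_subset fun s hs => (hc hs).1, ?_⟩, fun s hs => subset_sUnion_of_mem hs⟩
    rintro a ⟨s, hs, ha⟩ b ⟨t, ht, hb⟩ hab
    rcases hchain.total hs ht with h | h
    · exact (hc ht).2 a (h ha) b hb hab
    · exact (hc hs).2 a ha b (h hb) hab)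
  refine ⟨A, hA.prop.1, ccc A hA.prop.2, fun p => ?_, hA.prop.2⟩
  by_contra hcon
  push Not at hcon
  obtain ⟨r, hr, hrE⟩ := hE p
  have h1 : insert r A ⊆ A := by
    refine hA.le_of_ge ⟨insert_subset hrE hA.prop.1, ?_⟩ (subset_insert _ _)
    rintro a (rfl | ha) b (rfl | hb) hab
    · rfl
    · exfalso
      obtain ⟨s, hs1, hs2⟩ := hab
      exact hcon b hb ⟨s, hs2, hs1.trans hr⟩
    · exfalso
      obtain ⟨s, hs1, hs2⟩ := hab
      exact hcon a ha ⟨s, hs1, hs2.trans hr⟩
    · exact hA.prop.2 a ha b hb hab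
  exact hcon r (h1 (mem_insert _ _)) ⟨r, le_rfl, hr⟩

/-! ### The generic sequence -/

/-- the generic sequence at coordinate `α`: its value at `n` is the first `k` such that the bit
with index `(n, k)` of the Cohen real is `1` -/
def X (α : ι) (n k : ℕ) : Set (Fn ι) :=
  {p | ((α, Nat.pair n k), true) ∈ p.g ∧ ∀ j < k, ((α, Nat.pair n j), false) ∈ p.g}

theorem down_X (α : ι) (n k : ℕ) : Down (X α n k) :=
  fun _ hp _ hq => ⟨hq hp.1, fun j hj => hq (hp.2 j hj)⟩

theorem X_unique {α : ι} {n k k' : ℕ} {p : Fn ι} (h : p ∈ X α n k) (h' : p ∈ X α n k') :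
    k = k' := by
  rcases lt_trichotomy k k' with hlt | heq | hlt
  · exact absurd (p.fn _ _ _ h.1 (h'.2 k hlt)) (by simp)
  · exact heq
  · exact absurd (p.fn _ _ _ h'.1 (h.2 k' hlt)) (by simp)

/-- deciding one value -/
theorem decide_row (α : ι) (n : ℕ) (p : Fn ι) : ∃ q ≤ p, (∃ k, q ∈ X α n k) ∧
    ∀ m ≠ n, ∀ k b, ((α, Nat.pair m k), b) ∈ q.g → ((α, Nat.pair m k), b) ∈ p.g := by
  classical
  have hex : ∃ k, ((α, Nat.pair n k), false) ∉ p.g := by
    by_contra hcon
    push Not at hcon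
    have hinj : Function.Injective fun k : ℕ => ((α, Nat.pair n k), false) := by
      intro k k' h
      simp only [Prod.mk.injEq, true_and, and_true, Nat.pair_eq_pair] at h
      exact h
    exact Set.infinite_of_injective_forall_mem hinj hcon (Finset.finite_toSet p.g)
  let k := Nat.find hex
  have hk : ((α, Nat.pair n k), false) ∉ p.g := Nat.find_spec hex
  have hk' : ∀ j < k, ((α, Nat.pair n j), false) ∈ p.g := fun j hj => by
    have := Nat.find_min hex hj
    rwa [not_not] at this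
  refine ⟨⟨insert ((α, Nat.pair n k), true) p.g, fun a b b' hb hb' => ?_⟩,
    Finset.subset_insert _ _, ⟨k, Finset.mem_insert_self _ _,
      fun j hj => Finset.mem_insert_of_mem (hk' j hj)⟩, fun m hm j b hb => ?_⟩
  · rcases Finset.mem_insert.1 hb with hb | hb <;> rcases Finset.mem_insert.1 hb' with hb' | hb'
    · simp only [Prod.mk.injEq] at hb hb'
      rw [hb.2, hb'.2]
    · simp only [Prod.mk.injEq] at hb
      obtain ⟨rfl, rfl⟩ := hb
      cases b'
      · exact absurd hb' hk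
      · rfl
    · simp only [Prod.mk.injEq] at hb'
      obtain ⟨rfl, rfl⟩ := hb'
      cases b
      · exact absurd hb hk
      · rfl
    · exact p.fn a b b' hb hb'
  · rcases Finset.mem_insert.1 hb with hb | hb
    · simp only [Prod.mk.injEq, true_and, Nat.pair_eq_pair] at hb
      exact absurd hb.1.1 hm
    · exact hb

/-- deciding an initial segment -/
theorem clean (α : ι) (p : Fn ι) : ∃ q ≤ p, ∃ N, ∃ f : ℕ → ℕ, (∀ n < N, q ∈ X α n (f n)) ∧
    ∀ n ≥ N, ∀ k b, ((α, Nat.pair n k), b) ∉ q.g := by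
  classical
  obtain ⟨N, hN⟩ : ∃ N, ∀ n ≥ N, ∀ k b, ((α, Nat.pair n k), b) ∉ p.g := by
    obtain ⟨N, hN⟩ := (p.g.image fun x => (Nat.unpair x.1.2).1).finite_toSet.bddAbove
    refine ⟨N + 1, fun n hn k b h => ?_⟩
    have h1 : n ∈ (↑(p.g.image fun x => (Nat.unpair x.1.2).1) : Set ℕ) := by
      rw [Finset.mem_coe, Finset.mem_image]
      exact ⟨_, h, by simp⟩
    have := hN h1
    omega
  have h1 : ∀ M ≤ N, ∃ q ≤ p, (∀ n < M, ∃ k, q ∈ X α n k) ∧
      ∀ n ≥ N, ∀ k b, ((α, Nat.pair n k), b) ∉ q.g := by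
    intro M
    induction M with
    | zero => intro _; exact ⟨p, le_rfl, fun n hn => absurd hn (Nat.not_lt_zero _), hN⟩
    | succ M ih =>
      intro hM
      obtain ⟨q, h1, h2, h3⟩ := ih (by omega)
      obtain ⟨r, h4, h5, h6⟩ := decide_row α M q
      refine ⟨r, h4.trans h1, fun n hn => ?_, fun n hn k b h => ?_⟩
      · rcases Nat.lt_succ_iff_lt_or_eq.1 hn with h | rfl
        · obtain ⟨k, hk⟩ := h2 n h
          exact ⟨k, down_X _ _ _ _ hk _ h4⟩
        · exact h5
      · exact h3 n hn k b (h6 n (by omega) k b h)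
  obtain ⟨q, h2, h3, h4⟩ := h1 N le_rfl
  have h5 : ∀ n, ∃ k, n < N → q ∈ X α n k := by
    intro n
    by_cases hn : n < N
    · obtain ⟨k, hk⟩ := h3 n hn
      exact ⟨k, fun _ => hk⟩
    · exact ⟨0, fun h => absurd h hn⟩
  choose f hf using h5
  exact ⟨q, h2, N, f, fun n hn => hf n hn, h4⟩

/-- prescribing further values -/
theorem prescribe (α : ι) {q : Fn ι} {N : ℕ} (hq : ∀ n ≥ N, ∀ k b, ((α, Nat.pair n k), b) ∉ q.g)
    (f : ℕ → ℕ) (M : ℕ) : ∃ r ≤ q, ∀ n, N ≤ n → n < M → r ∈ X α n (f n) := by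
  classical
  let G : Finset ((ι × ℕ) × Bool) := (Finset.Ico N M).biUnion fun n =>
    (Finset.range (f n + 1)).image fun j => ((α, Nat.pair n j), decide (j = f n))
  have hG : ∀ a b, (a, b) ∈ G ↔ ∃ n, N ≤ n ∧ n < M ∧ ∃ j ≤ f n, a = (α, Nat.pair n j) ∧
      b = decide (j = f n) := by
    intro a b
    simp only [G, Finset.mem_biUnion, Finset.mem_Ico, Finset.mem_image, Finset.mem_range,
      Prod.mk.injEq, Nat.lt_succ_iff]
    constructor
    · rintro ⟨n, ⟨h1, h2⟩, j, h3, h4, h5⟩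
      exact ⟨n, h1, h2, j, h3, h4.symm, h5.symm⟩
    · rintro ⟨n, h1, h2, j, h3, h4, h5⟩
      exact ⟨n, ⟨h1, h2⟩, j, h3, h4.symm, h5.symm⟩
  refine ⟨⟨q.g ∪ G, fun a b b' hb hb' => ?_⟩, Finset.subset_union_left, fun n hn hn' => ⟨?_, ?_⟩⟩
  · rcases Finset.mem_union.1 hb with hb | hb <;> rcases Finset.mem_union.1 hb' with hb' | hb'
    · exact q.fn a b b' hb hb'
    · obtain ⟨n, h1, _, j, _, h4, _⟩ := (hG a b').1 hb'
      rw [h4] at hb
      exact absurd hb (hq n h1 j b)
    · obtain ⟨n, h1, _, j, _, h4, _⟩ := (hG a b).1 hb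
      rw [h4] at hb'
      exact absurd hb' (hq n h1 j b')
    · obtain ⟨n, _, _, j, _, h4, h5⟩ := (hG a b).1 hb
      obtain ⟨n', _, _, j', _, h4', h5'⟩ := (hG a b').1 hb'
      rw [h4] at h4'
      simp only [Prod.mk.injEq, true_and, Nat.pair_eq_pair] at h4'
      rw [h5, h5', h4'.1, h4'.2]
  · exact Finset.mem_union_right _ ((hG _ _).2 ⟨n, hn, hn', f n, le_rfl, rfl, by simp⟩)
  · intro j hj
    exact Finset.mem_union_right _ ((hG _ _).2 ⟨n, hn, hn', j, hj.le, rfl, by simp [hj.ne]⟩)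

theorem isFun_X (α : ι) (p : Fn ι) : p ∈ IsFun (X α) := by
  refine ⟨fun n => mem_fex.2 fun q _ => ?_, fun n k k' => mem_fimp.2 fun q _ h => ?_⟩
  · obtain ⟨r, hr, ⟨k, hk⟩, _⟩ := decide_row α n q
    exact ⟨r, hr, k, meets_of_mem hk⟩
  · obtain ⟨r, hr, hr'⟩ := exists_of_meets (down_X α n k) h.1
    obtain ⟨s, hs, hs'⟩ := exists_of_meets (down_X α n k') (down_meets _ _ h.2 r hr)
    exact ⟨q, le_rfl, X_unique (down_X α n k _ hr' s hs) hs'⟩

theorem meetsDense (hι : ℵ₀ < #ι) {J : Type} (hJ : #J < #ι) (p : Fn ι) :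
    p ∈ MeetsDense (Fn ι) J := by
  classical
  intro D
  refine mem_fimp.2 fun q _ hq => ⟨q, le_rfl, ?_⟩
  -- the antichains
  have hE : ∀ x : J × List ℕ, ∃ A ⊆ {r : Fn ι | (∃ t, x.2 <+: t ∧ r ∈ meets (D x.1 t)) ∨
      ¬ Compat r q}, A.Countable ∧ (∀ p, ∃ a ∈ A, Compat a p) ∧
      ∀ a ∈ A, ∀ b ∈ A, Compat a b → a = b := by
    rintro ⟨j, s⟩
    apply exists_antichain
    intro r
    by_cases hr : Compat r q
    · obtain ⟨r', h1, h2⟩ := hr
      obtain ⟨r'', h3, t, h4, h5⟩ := mem_fex.1 (hq j s) r' h2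
      exact ⟨r'', h3.trans h1, Or.inl ⟨t, h4, h5⟩⟩
    · exact ⟨r, le_rfl, Or.inr hr⟩
  choose A hAE hAc hApre _ using hE
  -- a new coordinate
  obtain ⟨α, hα⟩ : ∃ α : ι, ∀ x, ∀ a ∈ A x, ∀ y ∈ a.g, y.1.1 ≠ α := by
    by_contra hcon
    push Not at hcon
    have h1 : (Set.univ : Set ι) ⊆ ⋃ x : J × List ℕ, ⋃ a ∈ A x,
        (fun y : (ι × ℕ) × Bool => y.1.1) '' (a.g : Set ((ι × ℕ) × Bool)) := by
      intro α _
      obtain ⟨x, a, ha, y, hy, h⟩ := hcon α
      exact mem_iUnion.2 ⟨x, mem_biUnion ha ⟨y, Finset.mem_coe.2 hy, h⟩⟩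
    have h2 : #ι ≤ #(J × List ℕ) * ℵ₀ := by
      rw [← mk_univ]
      refine (mk_le_mk_of_subset h1).trans ((mk_iUnion_le_sum_mk).trans ?_)
      refine (sum_le_sum _ (fun _ => ℵ₀) fun x => ?_).trans ?_
      · rw [le_aleph0_iff_set_countable]
        exact (hAc x).biUnion fun a _ => (Finset.countable_toSet _).image _
      · rw [sum_const']
    have h3 : #(J × List ℕ) * ℵ₀ < #ι := by
      refine mul_lt_of_lt hι.le ?_ hι
      rw [mk_prod]
      simp only [Cardinal.lift_id]
      refine mul_lt_of_lt hι.le hJ ?_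
      exact (mk_le_aleph0 (α := List ℕ)).trans_lt hι
    exact absurd h2 (not_le.2 h3)
  refine mem_fex_of_mem (X α) (down_fand (down_IsFun _) (down_fall fun _ => down_fex _))
    ⟨isFun_X α q, fun j => mem_fex.2 fun r hr => ?_⟩
  obtain ⟨r1, h1, N, f, h2, h3⟩ := clean α r
  obtain ⟨a, haA, r2', h4, h5⟩ := hApre (j, (List.range N).map f) r1
  -- the union of `a` and `r1`
  have hc : Compat a r1 := ⟨r2', h4, h5⟩
  rw [compat_iff] at hc
  let r2 : Fn ι := ⟨a.g ∪ r1.g, fun x b b' hb hb' => by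
    rcases Finset.mem_union.1 hb with hb | hb <;> rcases Finset.mem_union.1 hb' with hb' | hb'
    · exact a.fn x b b' hb hb'
    · exact hc x b b' hb hb'
    · exact (hc x b' b hb' hb).symm
    · exact r1.fn x b b' hb hb'⟩
  have h6 : r2 ≤ a := Finset.subset_union_left
  have h7 : r2 ≤ r1 := Finset.subset_union_right
  rcases hAE _ haA with ⟨t, ht, hta⟩ | hinc
  · have h8 : ∀ n ≥ N, ∀ k b, ((α, Nat.pair n k), b) ∉ r2.g := by
      intro n hn k b hb
      rcases Finset.mem_union.1 hb with hb | hb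
      · exact hα _ a haA _ hb rfl
      · exact h3 n hn k b hb
    obtain ⟨r3, h9, h10⟩ := prescribe α h8 (fun n => t.getD n 0) t.length
    refine ⟨r3, h9.trans (h7.trans h1), t, ?_, down_meets _ _ hta r3 (h9.trans h6)⟩
    intro i hi
    apply meets_of_mem
    rcases lt_or_ge i N with h | h
    · have h11 := h2 i h
      have h12 : t.getD i 0 = f i := by
        obtain ⟨u, rfl⟩ := ht
        rw [List.getD_append _ _ _ _ (by simpa using h)]
        simp [h]
      rw [h12]
      exact down_X _ _ _ _ h11 _ (h9.trans h7)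
    · exact h10 i h hi
  · exact absurd ⟨r2, h6, h7.trans (h1.trans hr)⟩ hinc

end Pool.Agent.KS6_22.CU.G.Cohen
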